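import Mathlib

/-!
# The limiting set of the ratio of automorphisms to strict endomorphisms is `[0,1]`
-/

set_option autoImplicit false

namespace Pool.Agent.Results.MP_e2735d_co.LimitSet

open Filter Topology

/-- A finite undirected graph without multiple edges; loops are permitted. -/
structure LoopGraph where
  V : Type
  [fin : Fintype V]
  E : V → V → Prop
  symm : ∀ x y, E x y → E y x

attribute [instance] LoopGraph.fin

/-- The strict endomorphisms: maps sending edges (and loops) to edges (or loops). -/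
def strictEnd (G : LoopGraph) : Set (G.V → G.V) := {f | ∀ x y, G.E x y → G.E (f x) (f y)}

/-- The automorphisms: bijections preserving edges and non-edges. -/
def autos (G : LoopGraph) : Set (Equiv.Perm G.V) := {σ | ∀ x y, G.E x y ↔ G.E (σ x) (σ y)}

/-- The quotient `|Aut G| / |End_s G|`. -/
noncomputable def q (G : LoopGraph) : ℝ := (autos G).ncard / (strictEnd G).ncard

/-- The limiting set. -/
def limitSet : Set ℝ := {l | ∃ G : ℕ → LoopGraph,
  Tendsto (fun k => Fintype.card (G k).V) atTop atTop ∧ Tendsto (fun k => q (G k)) atTop (𝓝 l)}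

/-! ### General facts -/

lemma perm_hom_aut (G : LoopGraph) (σ : Equiv.Perm G.V)
    (h : ∀ x y, G.E x y → G.E (σ x) (σ y)) : σ ∈ autos G := by
  have hpow : ∀ n : ℕ, ∀ x y, G.E x y → G.E ((σ ^ n) x) ((σ ^ n) y) := by
    intro n
    induction n with
    | zero => exact fun x y h => h
    | succ n ih =>
      intro x y hxy
      rw [pow_succ', Equiv.Perm.mul_apply, Equiv.Perm.mul_apply]
      exact h _ _ (ih x y hxy)
  intro x y
  refine ⟨h x y, fun hxy => ?_⟩
  have hpos : 0 < orderOf σ := orderOf_pos σ
  obtain ⟨n, hn⟩ : ∃ n, orderOf σ = n + 1 := ⟨orderOf σ - 1, by omega⟩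
  have h1 := hpow n _ _ hxy
  have h2 : ∀ z, (σ ^ n) (σ z) = z := by
    intro z
    rw [← Equiv.Perm.mul_apply, ← pow_succ, ← hn, pow_orderOf_eq_one, Equiv.Perm.one_apply]
  rwa [h2, h2] at h1

lemma ncard_autos_le (G : LoopGraph) : (autos G).ncard ≤ (strictEnd G).ncard := by
  refine Set.ncard_le_ncard_of_injOn (fun σ : Equiv.Perm G.V => (σ : G.V → G.V)) ?_ ?_
    (Set.toFinite _)
  · intro σ hσ x y hxy
    exact (hσ x y).1 hxy
  · intro σ _ τ _ h
    exact Equiv.ext (congrFun h)

lemma q_mem (G : LoopGraph) : q G ∈ Set.Icc (0 : ℝ) 1 := by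
  constructor
  · unfold q; positivity
  · unfold q
    exact div_le_one_of_le₀ (by exact_mod_cast ncard_autos_le G) (by positivity)

/-! ### The example -/

/-- Vertices of the example: a complete graph on `Fin t ⊕ Fin m` and one further vertex. -/
abbrev Vt (t m : ℕ) : Type := (Fin t ⊕ Fin m) ⊕ Unit

/-- Adjacency of the example: distinct vertices of the complete graph are adjacent, the further
vertex has a loop and is joined to the `t` vertices of the first kind. -/
def adj (t m : ℕ) : Vt t m → Vt t m → Prop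
  | .inl a, .inl b => a ≠ b
  | .inr _, .inl (.inl _) => True
  | .inl (.inl _), .inr _ => True
  | .inr _, .inl (.inr _) => False
  | .inl (.inr _), .inr _ => False
  | .inr _, .inr _ => True

/-- The example. -/
abbrev Gr (t m : ℕ) : LoopGraph where
  V := Vt t m
  E := adj t m
  symm := by
    rintro ((x | x) | x) ((y | y) | y) h <;> simp_all [adj, eq_comm]

/-- The sum over partial injections. -/
lemma card_partial (t m : ℕ) :
    Fintype.card (Σ D : Finset (Fin t ⊕ Fin m), (D ↪ Fin t)) =
      ∑ k ∈ Finset.range (t + m + 1), (t + m).choose k * t.descFactorial k := by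
  rw [Fintype.card_sigma]
  have h1 : ∀ D : Finset (Fin t ⊕ Fin m), Fintype.card (D ↪ Fin t) = t.descFactorial D.card := by
    intro D
    rw [Fintype.card_embedding_eq]
    simp
  rw [Finset.sum_congr rfl fun D _ => h1 D, ← Finset.powerset_univ,
    Finset.sum_powerset_apply_card (fun k => t.descFactorial k)]
  simp

/-- The endomorphism given by a partial injection. -/
def ofPartial (t m : ℕ) (p : Σ D : Finset (Fin t ⊕ Fin m), (D ↪ Fin t)) : Vt t m → Vt t m
  | .inl a => if h : a ∈ p.1 then .inl (.inl (p.2 ⟨a, h⟩)) else .inr ()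
  | .inr _ => .inr ()

lemma ofPartial_inj (t m : ℕ) : Function.Injective (ofPartial t m) := by
  rintro ⟨D, e⟩ ⟨D', e'⟩ h
  have h1 : ∀ a, (if h : a ∈ D then (.inl (.inl (e ⟨a, h⟩)) : Vt t m) else .inr ()) =
      if h : a ∈ D' then .inl (.inl (e' ⟨a, h⟩)) else .inr () :=
    fun a => congrFun h (.inl a)
  have hD : D = D' := by
    ext a
    have := h1 a
    by_cases ha : a ∈ D <;> by_cases ha' : a ∈ D' <;> simp_all
  subst hD
  congr 1
  ext ⟨a, ha⟩
  have := h1 a
  rw [dif_pos ha, dif_pos ha] at this
  exact congrArg Fin.val (Sum.inl_injective (Sum.inl_injective this))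

lemma range_ofPartial (t m : ℕ) (hm : 0 < m) : Set.range (ofPartial t m) =
    {f | f ∈ strictEnd (Gr t m) ∧ ∃ a, f (.inl a) = .inr ()} := by
  classical
  ext f
  constructor
  · rintro ⟨⟨D, e⟩, rfl⟩
    have hex : ∃ a, a ∉ D := by
      by_contra hc
      push Not at hc
      have h1 : D = Finset.univ := Finset.eq_univ_iff_forall.2 hc
      have h2 := Fintype.card_le_of_embedding e
      rw [Fintype.card_coe, h1, Finset.card_univ] at h2
      simp at h2
      omega
    obtain ⟨a, ha⟩ := hex
    refine ⟨?_, a, by simp [ofPartial, ha]⟩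
    rintro (x | x) (y | y) hxy
    · have hne : x ≠ y := by
        rintro rfl
        rcases x with x | x <;> exact hxy rfl
      show adj t m (ofPartial t m ⟨D, e⟩ (Sum.inl x)) (ofPartial t m ⟨D, e⟩ (Sum.inl y))
      by_cases hx : x ∈ D <;> by_cases hy : y ∈ D <;> simp [ofPartial, hx, hy, adj, hne]
    · show adj t m (ofPartial t m ⟨D, e⟩ (Sum.inl x)) (ofPartial t m ⟨D, e⟩ (Sum.inr y))
      by_cases hx : x ∈ D <;> simp [ofPartial, hx, adj]
    · show adj t m (ofPartial t m ⟨D, e⟩ (Sum.inr x)) (ofPartial t m ⟨D, e⟩ (Sum.inl y))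
      by_cases hy : y ∈ D <;> simp [ofPartial, hy, adj]
    · show adj t m (ofPartial t m ⟨D, e⟩ (Sum.inr x)) (ofPartial t m ⟨D, e⟩ (Sum.inr y))
      simp [ofPartial, adj]
  · rintro ⟨hf, a, ha⟩
    have hw : f (.inr ()) = .inr () := by
      have := hf (.inr ()) (.inr ()) trivial
      rcases hfw : f (.inr ()) with x | x
      · rw [hfw] at this
        exact absurd rfl this
      · rfl
    have hval : ∀ b, f (.inl b) = .inr () ∨ ∃ c, f (.inl b) = .inl (.inl c) := by
      intro b
      by_cases hab : a = b
      · left; rw [← hab]; exact ha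
      · have := hf (.inl a) (.inl b) hab
        rw [ha] at this
        rcases hfb : f (.inl b) with (x | x) | x
        · exact Or.inr ⟨x, rfl⟩
        · rw [hfb] at this
          exact absurd this id
        · exact Or.inl rfl
    let D : Finset (Fin t ⊕ Fin m) := Finset.univ.filter fun b => f (.inl b) ≠ .inr ()
    have hD : ∀ b : D, ∃ c, f (.inl b.1) = .inl (.inl c) := by
      rintro ⟨b, hb⟩
      exact (hval b).resolve_left (Finset.mem_filter.1 hb).2
    choose e he using hD
    have hinj : Function.Injective e := by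
      rintro ⟨b, hb⟩ ⟨b', hb'⟩ hbb
      by_contra hne
      have hne' : b ≠ b' := fun h => hne (Subtype.ext h)
      have := hf (.inl b) (.inl b') hne'
      rw [he ⟨b, hb⟩, he ⟨b', hb'⟩, hbb] at this
      exact this rfl
    refine ⟨⟨D, ⟨e, hinj⟩⟩, ?_⟩
    funext x
    rcases x with x | x
    · by_cases hx : x ∈ D
      · simp only [ofPartial, hx, dif_pos, Function.Embedding.coeFn_mk]
        exact (he ⟨x, hx⟩).symm
      · simp only [ofPartial, hx, dif_neg, not_false_eq_true]
        have : f (.inl x) = .inr () := by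
          by_contra h
          exact hx (Finset.mem_filter.2 ⟨Finset.mem_univ _, h⟩)
        exact this.symm
    · exact hw.symm

lemma autos_fix (t m : ℕ) (σ : Equiv.Perm (Vt t m)) (hσ : σ ∈ autos (Gr t m)) :
    σ (.inr ()) = .inr () := by
  have := (hσ (.inr ()) (.inr ())).1 trivial
  rcases h : σ (.inr ()) with x | x
  · rw [h] at this
    exact absurd rfl this
  · rfl

lemma autos_eq (t m : ℕ) : autos (Gr t m) = Set.range
    (fun p : Equiv.Perm (Fin t) × Equiv.Perm (Fin m) =>
      (Equiv.sumCongr (Equiv.sumCongr p.1 p.2) (Equiv.refl Unit) : Equiv.Perm (Vt t m))) := by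
  ext σ
  constructor
  · intro hσ
    have hfix := autos_fix t m σ hσ
    have h1 : Set.MapsTo σ (Set.range (Sum.inl : _ → Vt t m)) (Set.range Sum.inl) := by
      rintro _ ⟨a, rfl⟩
      rcases h : σ (.inl a) with x | x
      · exact ⟨x, rfl⟩
      · exfalso
        have : σ (.inl a) = σ (.inr ()) := by rw [h, hfix]
        simpa using σ.injective this
    obtain ⟨⟨τ, υ⟩, hτ⟩ := Equiv.Perm.mem_sumCongrHom_range_of_perm_mapsTo_inl h1
    have hτ' : ∀ a, σ (.inl a) = .inl (τ a) := by
      intro a
      rw [← hτ]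
      rfl
    have h2 : Set.MapsTo τ (Set.range (Sum.inl : Fin t → Fin t ⊕ Fin m)) (Set.range Sum.inl) := by
      rintro _ ⟨a, rfl⟩
      have := (hσ (.inl (.inl a)) (.inr ())).1 trivial
      rw [hτ', hfix] at this
      rcases h : τ (.inl a) with x | x
      · exact ⟨x, rfl⟩
      · rw [h] at this
        exact absurd this id
    obtain ⟨⟨π, ρ⟩, hπ⟩ := Equiv.Perm.mem_sumCongrHom_range_of_perm_mapsTo_inl h2
    refine ⟨(π, ρ), ?_⟩
    apply Equiv.ext
    rintro (a | a)
    · rw [hτ', ← hπ]
      rfl
    · exact hfix.symm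
  · rintro ⟨⟨π, ρ⟩, rfl⟩
    apply perm_hom_aut
    rintro ((x | x) | x) ((y | y) | y) h
    · have h' : (.inl x : Fin t ⊕ Fin m) ≠ .inl y := h
      show (.inl (π x) : Fin t ⊕ Fin m) ≠ .inl (π y)
      simpa using h'
    · show (.inl (π x) : Fin t ⊕ Fin m) ≠ .inr (ρ y)
      simp
    · exact trivial
    · show (.inr (ρ x) : Fin t ⊕ Fin m) ≠ .inl (π y)
      simp
    · have h' : (.inr x : Fin t ⊕ Fin m) ≠ .inr y := h
      show (.inr (ρ x) : Fin t ⊕ Fin m) ≠ .inr (ρ y)
      simpa using h'
    · exact absurd h id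
    · exact trivial
    · exact absurd h id
    · exact trivial

lemma ncard_autos (t m : ℕ) : (autos (Gr t m)).ncard = t.factorial * m.factorial := by
  rw [autos_eq, ← Set.image_univ, Set.InjOn.ncard_image, Set.ncard_univ, Nat.card_prod,
    Nat.card_perm, Nat.card_perm]
  · simp
  · rintro ⟨π, ρ⟩ - ⟨π', ρ'⟩ - h
    have h1 : π = π' := by
      ext x
      have := Equiv.congr_fun h (.inl (.inl x))
      exact congrArg Fin.val (Sum.inl_injective (Sum.inl_injective this))
    have h2 : ρ = ρ' := by
      ext x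
      have := Equiv.congr_fun h (.inl (.inr x))
      exact congrArg Fin.val (Sum.inr_injective (Sum.inl_injective this))
    rw [h1, h2]

lemma noncollapsing (t m : ℕ) : {f | f ∈ strictEnd (Gr t m) ∧ ∀ a, f (.inl a) ≠ .inr ()} =
    (fun σ : Equiv.Perm (Gr t m).V => (σ : (Gr t m).V → (Gr t m).V)) '' autos (Gr t m) := by
  ext f
  constructor
  · rintro ⟨hf, ha⟩
    have hw : f (.inr ()) = .inr () := by
      have := hf (.inr ()) (.inr ()) trivial
      rcases hfw : f (.inr ()) with x | x
      · rw [hfw] at this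
        exact absurd rfl this
      · rfl
    have hinj : Function.Injective f := by
      rintro (x | x) (y | y) hxy
      · by_contra hne
        have h1 : x ≠ y := fun h => hne (by rw [h])
        have := hf (.inl x) (.inl y) h1
        rw [hxy] at this
        rcases hfy : f (.inl y) with z | z
        · rw [hfy] at this
          exact this rfl
        · exact ha y hfy
      · exact absurd (hxy.trans hw) (ha x)
      · exact absurd (hxy.symm.trans hw) (ha y)
      · rfl
    have hbij : Function.Bijective f := Finite.injective_iff_bijective.1 hinj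
    refine ⟨Equiv.ofBijective f hbij, perm_hom_aut _ _ hf, rfl⟩
  · rintro ⟨σ, hσ, rfl⟩
    refine ⟨fun x y h => (hσ x y).1 h, fun a h => ?_⟩
    have := autos_fix t m σ hσ
    have h' : σ (.inl a) = σ (.inr ()) := h.trans this.symm
    simpa using σ.injective h'

lemma ncard_end (t m : ℕ) (hm : 0 < m) : (strictEnd (Gr t m)).ncard =
    t.factorial * m.factorial +
      ∑ k ∈ Finset.range (t + m + 1), (t + m).choose k * t.descFactorial k := by
  classical
  have h1 : strictEnd (Gr t m) =
      {f | f ∈ strictEnd (Gr t m) ∧ ∀ a, f (.inl a) ≠ .inr ()} ∪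
        {f | f ∈ strictEnd (Gr t m) ∧ ∃ a, f (.inl a) = .inr ()} := by
    ext f
    constructor
    · intro hf
      by_cases h : ∃ a, f (.inl a) = .inr ()
      · exact Or.inr ⟨hf, h⟩
      · push Not at h
        exact Or.inl ⟨hf, h⟩
    · rintro (h | h) <;> exact h.1
  have hdisj : Disjoint {f | f ∈ strictEnd (Gr t m) ∧ ∀ a, f (.inl a) ≠ .inr ()}
      {f | f ∈ strictEnd (Gr t m) ∧ ∃ a, f (.inl a) = .inr ()} := by
    rw [Set.disjoint_left]
    rintro f ⟨-, h⟩ ⟨-, a, ha⟩
    exact h a ha
  rw [h1, Set.ncard_union_eq hdisj (Set.toFinite _) (Set.toFinite _), noncollapsing,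
    ← range_ofPartial t m hm, Set.InjOn.ncard_image, ncard_autos, ← Set.image_univ,
    Set.InjOn.ncard_image, Set.ncard_univ, Nat.card_eq_fintype_card, card_partial]
  · exact (ofPartial_inj t m).injOn
  · intro σ _ τ _ h
    exact Equiv.ext (congrFun h)

/-! ### Analysis -/

/-- The terms of the sum. -/
noncomputable def a (m t j : ℕ) : ℝ := ((t + m).choose (t - j) : ℝ) / (j.factorial : ℝ)

/-- The sum. -/
noncomputable def A (m t : ℕ) : ℝ := ∑ j ∈ Finset.range (t + 1), a m t j

lemma a_nonneg (m t j : ℕ) : 0 ≤ a m t j := by unfold a; positivity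

lemma sum_eq (t m : ℕ) :
    ((∑ k ∈ Finset.range (t + m + 1), (t + m).choose k * t.descFactorial k : ℕ) : ℝ) =
      t.factorial * A m t := by
  have h1 : ∑ k ∈ Finset.range (t + m + 1), (t + m).choose k * t.descFactorial k =
      ∑ k ∈ Finset.range (t + 1), (t + m).choose k * t.descFactorial k := by
    symm
    apply Finset.sum_subset
    · intro k hk
      simp only [Finset.mem_range] at hk ⊢
      omega
    · intro k _ hk
      simp only [Finset.mem_range, not_lt] at hk
      rw [Nat.descFactorial_of_lt (by omega), mul_zero]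
  rw [h1, ← Finset.sum_range_reflect]
  unfold A
  push_cast
  rw [Finset.mul_sum]
  refine Finset.sum_congr rfl fun j hj => ?_
  rw [Finset.mem_range] at hj
  have h3 : (j.factorial : ℝ) * t.descFactorial (t - j) = t.factorial := by
    have := Nat.factorial_mul_descFactorial (show t - j ≤ t by omega)
    rw [show t - (t - j) = j by omega] at this
    exact_mod_cast this
  have h4 : (j.factorial : ℝ) ≠ 0 := by positivity
  unfold a
  rw [← h3]
  field_simp

lemma q_eq (t m : ℕ) (hm : 0 < m) : q (Gr t m) = 1 / (1 + A m t / m.factorial) := by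
  unfold q
  rw [ncard_autos, ncard_end t m hm]
  have h1 := sum_eq t m
  push_cast at h1 ⊢
  rw [h1]
  have h2 : (t.factorial : ℝ) ≠ 0 := by positivity
  have h3 : (m.factorial : ℝ) ≠ 0 := by positivity
  have h4 : 0 ≤ A m t := Finset.sum_nonneg fun j _ => a_nonneg m t j
  have h5 : (m.factorial : ℝ) + A m t ≠ 0 := by positivity
  field_simp

lemma A_succ (m t : ℕ) : A m (t + 1) = A m t + ((t + m).choose (t + 1) : ℝ) +
    ∑ i ∈ Finset.range (t + 1), a m t i / (i + 1) := by
  have h1 : ∀ j ∈ Finset.range (t + 1 + 1), a m (t + 1) j =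
      ((t + m).choose (t + 1 - j) : ℝ) / j.factorial +
        if j < t + 1 then a m t j else 0 := by
    intro j hj
    rw [Finset.mem_range] at hj
    unfold a
    split_ifs with h
    · obtain ⟨k, hk⟩ : ∃ k, t + 1 - j = k + 1 := ⟨t - j, by omega⟩
      have hk' : t - j = k := by omega
      rw [hk, hk', show t + 1 + m = (t + m) + 1 by ring, Nat.choose_succ_succ]
      push_cast
      ring
    · have : j = t + 1 := by omega
      rw [this]
      simp
  unfold A
  rw [Finset.sum_congr rfl h1, Finset.sum_add_distrib]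
  have h2 : ∑ j ∈ Finset.range (t + 1 + 1), (if j < t + 1 then a m t j else 0) =
      ∑ j ∈ Finset.range (t + 1), a m t j := by
    rw [Finset.sum_range_succ, if_neg (by omega), add_zero]
    refine Finset.sum_congr rfl fun j hj => ?_
    rw [if_pos (Finset.mem_range.1 hj)]
  have h3 : ∑ j ∈ Finset.range (t + 1 + 1), ((t + m).choose (t + 1 - j) : ℝ) / j.factorial =
      ((t + m).choose (t + 1) : ℝ) + ∑ i ∈ Finset.range (t + 1), a m t i / (i + 1) := by
    rw [Finset.sum_range_succ']
    rw [add_comm]
    congr 1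
    · simp
    · refine Finset.sum_congr rfl fun i _ => ?_
      unfold a
      rw [show t + 1 - (i + 1) = t - i by omega, Nat.factorial_succ]
      push_cast
      have : ((i : ℝ) + 1) ≠ 0 := by positivity
      have : ((i.factorial : ℕ) : ℝ) ≠ 0 := by positivity
      field_simp
  rw [h2, h3]
  ring

lemma a_ratio (m t i : ℕ) (hi : i < t) :
    a m t i / (i + 1) = a m t (i + 1) * ((m + i + 1 : ℝ) / (t - i)) := by
  unfold a
  obtain ⟨k, hk⟩ : ∃ k, t - i = k + 1 := ⟨t - i - 1, by omega⟩
  have hk' : t - (i + 1) = k := by omega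
  rw [hk, hk', Nat.factorial_succ]
  have h1 : ((t + m).choose (k + 1) : ℝ) * (k + 1) = (t + m).choose k * (m + i + 1) := by
    have := Nat.choose_succ_right_eq (t + m) k
    have h2 : t + m - k = m + i + 1 := by omega
    rw [h2] at this
    exact_mod_cast this
  have h3 : (t : ℝ) - i = k + 1 := by
    have : t = i + (k + 1) := by omega
    rw [this]; push_cast; ring
  rw [h3]
  have h4 : ((k : ℝ) + 1) ≠ 0 := by positivity
  have h5 : ((i : ℝ) + 1) ≠ 0 := by positivity
  have h6 : ((i.factorial : ℕ) : ℝ) ≠ 0 := by positivity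
  push_cast
  field_simp
  linarith

lemma A_nonneg (m t : ℕ) : 0 ≤ A m t := Finset.sum_nonneg fun j _ => a_nonneg m t j

lemma A_step_le (m t J : ℕ) (hJ : J < t) :
    A m (t + 1) ≤ A m t * (1 + m / (t + 1) + 1 / (J + 1) + (m + J) / (t - J)) := by
  rw [A_succ]
  have hA := A_nonneg m t
  have htJ : (0 : ℝ) < t - J := by
    have : (J : ℝ) < t := by exact_mod_cast hJ
    linarith
  have h1 : ((t + m).choose (t + 1) : ℝ) ≤ A m t * (m / (t + 1)) := by
    have h2 : ((t + m).choose (t + 1) : ℝ) * (t + 1) = (t + m).choose t * m := by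
      have := Nat.choose_succ_right_eq (t + m) t
      rw [show t + m - t = m by omega] at this
      exact_mod_cast this
    have h3 : ((t + m).choose t : ℝ) ≤ A m t := by
      have : a m t 0 = (t + m).choose t := by simp [a]
      rw [← this]
      exact Finset.single_le_sum (f := a m t) (fun j _ => a_nonneg m t j) (by simp)
    have h4 : ((t + m).choose (t + 1) : ℝ) = (t + m).choose t * (m / (t + 1)) := by
      have : ((t : ℝ) + 1) ≠ 0 := by positivity
      field_simp
      linarith
    rw [h4]
    exact mul_le_mul_of_nonneg_right h3 (by positivity)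
  have h5 : ∑ i ∈ Finset.range (t + 1), a m t i / (i + 1) ≤
      A m t * (1 / (J + 1)) + A m t * ((m + J) / (t - J)) := by
    rw [← Finset.sum_filter_add_sum_filter_not (Finset.range (t + 1)) (fun i => J ≤ i)]
    apply add_le_add
    · calc ∑ i ∈ (Finset.range (t + 1)).filter (fun i => J ≤ i), a m t i / (i + 1)
          ≤ ∑ i ∈ (Finset.range (t + 1)).filter (fun i => J ≤ i), a m t i * (1 / (J + 1)) := by
            refine Finset.sum_le_sum fun i hi => ?_
            have hi' : (J : ℝ) ≤ i := by exact_mod_cast (Finset.mem_filter.1 hi).2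
            rw [div_eq_mul_one_div]
            apply mul_le_mul_of_nonneg_left _ (a_nonneg m t i)
            apply one_div_le_one_div_of_le (by positivity)
            linarith
        _ ≤ ∑ i ∈ Finset.range (t + 1), a m t i * (1 / (J + 1)) :=
            Finset.sum_le_sum_of_subset_of_nonneg (Finset.filter_subset _ _)
              fun i _ _ => mul_nonneg (a_nonneg m t i) (by positivity)
        _ = A m t * (1 / (J + 1)) := by rw [← Finset.sum_mul]; rfl
    · have hfil : (Finset.range (t + 1)).filter (fun i => ¬ J ≤ i) = Finset.range J := by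
        ext i
        simp only [Finset.mem_filter, Finset.mem_range]
        omega
      rw [hfil]
      calc ∑ i ∈ Finset.range J, a m t i / (i + 1)
          ≤ ∑ i ∈ Finset.range J, a m t (i + 1) * ((m + J) / (t - J)) := by
            refine Finset.sum_le_sum fun i hi => ?_
            rw [Finset.mem_range] at hi
            rw [a_ratio m t i (by omega)]
            apply mul_le_mul_of_nonneg_left _ (a_nonneg m t (i + 1))
            have hi1 : (i : ℝ) + 1 ≤ J := by exact_mod_cast hi
            apply div_le_div₀ (by positivity) (by linarith) htJ (by linarith)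
        _ = (∑ i ∈ Finset.range J, a m t (i + 1)) * ((m + J) / (t - J)) := by
            rw [Finset.sum_mul]
        _ ≤ A m t * ((m + J) / (t - J)) := by
            apply mul_le_mul_of_nonneg_right _ (by positivity)
            unfold A
            rw [Finset.sum_range_succ']
            have h7 : ∑ i ∈ Finset.range J, a m t (i + 1) ≤ ∑ i ∈ Finset.range t, a m t (i + 1) :=
              Finset.sum_le_sum_of_subset_of_nonneg
                (by intro i hi; simp only [Finset.mem_range] at hi ⊢; omega)
                fun i _ _ => a_nonneg _ _ _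
            have := a_nonneg m t 0
            linarith
  nlinarith

lemma A_le (m t : ℕ) : A m t ≤ 2 ^ (t + m) := by
  have h1 : A m t ≤ ∑ j ∈ Finset.range (t + 1), ((t + m).choose j : ℝ) := by
    rw [← Finset.sum_range_reflect (fun j => ((t + m).choose j : ℝ))]
    unfold A
    refine Finset.sum_le_sum fun j hj => ?_
    rw [Finset.mem_range] at hj
    rw [show t + 1 - 1 - j = t - j by omega]
    unfold a
    apply div_le_self (by positivity)
    exact_mod_cast Nat.factorial_pos j
  have h2 : ∑ j ∈ Finset.range (t + 1), ((t + m).choose j : ℝ) ≤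
      ∑ j ∈ Finset.range (t + m + 1), ((t + m).choose j : ℝ) :=
    Finset.sum_le_sum_of_subset_of_nonneg
      (by intro i hi; simp only [Finset.mem_range] at hi ⊢; omega) fun i _ _ => by positivity
  have h3 : ∑ j ∈ Finset.range (t + m + 1), ((t + m).choose j : ℝ) = 2 ^ (t + m) := by
    exact_mod_cast Nat.sum_range_choose (t + m)
  linarith

lemma le_A (m t : ℕ) (hm : 0 < m) : (t : ℝ) + 1 ≤ A m t := by
  have h1 : ((t + m).choose t : ℝ) ≤ A m t := by
    have : a m t 0 = (t + m).choose t := by simp [a]
    rw [← this]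
    exact Finset.single_le_sum (f := a m t) (fun j _ => a_nonneg m t j) (by simp)
  have h2 : t + 1 ≤ (t + m).choose t := by
    calc t + 1 = (t + 1).choose t := by simp
      _ ≤ (t + m).choose t := Nat.choose_le_choose t (by omega)
  have h3 : ((t + 1 : ℕ) : ℝ) ≤ ((t + m).choose t : ℕ) := by exact_mod_cast h2
  push_cast at h3
  linarith

/-- Every positive number is approximated by the values of `A m t / m!`, with `m` large. -/
lemma approx (x ε : ℝ) (hx : 0 < x) (hε : 0 < ε) (n : ℕ) :
    ∃ m t : ℕ, n ≤ m ∧ 0 < m ∧ x ≤ A m t / m.factorial ∧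
      A m t / m.factorial ≤ x * (1 + ε) := by
  -- choose the parameters
  obtain ⟨J, hJ⟩ := exists_nat_gt (4 / ε)
  obtain ⟨K, hK⟩ := exists_nat_gt (8 / ε)
  have hKpos : (0 : ℝ) < K := lt_trans (by positivity) hK
  have hJpos : (0 : ℝ) < J := lt_trans (by positivity) hJ
  have hlim : Tendsto (fun m : ℕ => ((2 : ℝ) ^ (K + 2)) ^ m / (m.factorial : ℝ)) atTop (𝓝 0) :=
    FloorSemiring.tendsto_pow_div_factorial_atTop _
  have hev := hlim.eventually (gt_mem_nhds (show (0 : ℝ) < x / 2 by positivity))
  obtain ⟨m, hm1, hm2, hm3⟩ := (hev.and ((eventually_ge_atTop n).and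
    (eventually_ge_atTop (J + 1)))).exists
  have hmpos : 0 < m := by omega
  have hfac : (0 : ℝ) < m.factorial := by positivity
  -- the first `t` reaching `x`
  have hex : ∃ t, x ≤ A m t / m.factorial := by
    obtain ⟨t, ht⟩ := exists_nat_gt (x * m.factorial)
    refine ⟨t, ?_⟩
    rw [le_div_iff₀ hfac]
    have := le_A m t hmpos
    linarith
  classical
  have hspec := Nat.find_spec hex
  have hmin := fun s hs => Nat.find_min (m := s) hex hs
  generalize Nat.find hex = T at hspec hmin
  have hbig : (K + 1) * m < T := by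
    by_contra hle
    push Not at hle
    have h1 : A m T ≤ 2 ^ ((K + 2) * m) := by
      refine (A_le m T).trans ?_
      exact pow_le_pow_right₀ (by norm_num) (by nlinarith)
    have h2 : A m T / m.factorial ≤ ((2 : ℝ) ^ (K + 2)) ^ m / m.factorial := by
      rw [← pow_mul]
      exact div_le_div_of_nonneg_right h1 hfac.le
    linarith
  obtain ⟨t, rfl⟩ : ∃ t, T = t + 1 := ⟨T - 1, by
    have : 0 < T := lt_of_le_of_lt (Nat.zero_le _) hbig
    omega⟩
  have hlt : A m t / m.factorial < x := not_le.1 (hmin t (by omega))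
  refine ⟨m, t + 1, hm2, hmpos, hspec, ?_⟩
  have ht1 : (K + 1) * m ≤ t := by omega
  have hJt : J < t := by nlinarith
  have hstep := A_step_le m t J hJt
  have ht1' : ((K : ℝ) + 1) * m ≤ t := by exact_mod_cast ht1
  have hmJ : (J : ℝ) + 1 ≤ m := by exact_mod_cast hm3
  have hm0 : (0 : ℝ) < m := by linarith
  have e1 : (m : ℝ) / (t + 1) ≤ ε / 4 := by
    rw [div_le_iff₀ (by positivity)]
    have h1 : 8 / ε * m ≤ t := by nlinarith
    have h2 : 8 * m ≤ ε * t := by
      have := mul_le_mul_of_nonneg_left h1 hε.le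
      have h3 : ε * (8 / ε * m) = 8 * m := by field_simp
      linarith
    nlinarith
  have e2 : (1 : ℝ) / (J + 1) ≤ ε / 4 := by
    rw [div_le_iff₀ (by positivity)]
    have h2 : 4 ≤ ε * J := by
      have := mul_le_mul_of_nonneg_left hJ.le hε.le
      have h3 : ε * (4 / ε) = 4 := by field_simp
      linarith
    nlinarith
  have htJ : (0 : ℝ) < t - J := by
    have : (J : ℝ) < t := by exact_mod_cast hJt
    linarith
  have e3 : ((m : ℝ) + J) / (t - J) ≤ ε / 4 := by
    rw [div_le_iff₀ htJ]
    have h0 : (K : ℝ) * m ≤ t - J := by nlinarith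
    have h1 : 8 / ε * m ≤ t - J := by nlinarith
    have h2 : 8 * m ≤ ε * (t - J) := by
      have := mul_le_mul_of_nonneg_left h1 hε.le
      have h3 : ε * (8 / ε * m) = 8 * m := by field_simp
      linarith
    nlinarith
  have hA := A_nonneg m t
  have h1 : A m (t + 1) ≤ A m t * (1 + ε) := by
    refine hstep.trans (mul_le_mul_of_nonneg_left ?_ hA)
    linarith
  rw [div_le_iff₀ hfac]
  rw [div_lt_iff₀ hfac] at hlt
  nlinarith

/-- Every number of the unit interval is approximated by the quotients of large graphs. -/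
lemma approx_q (l : ℝ) (hl : l ∈ Set.Icc (0 : ℝ) 1) (n : ℕ) :
    ∃ G : LoopGraph, n ≤ Fintype.card G.V ∧ |q G - l| ≤ 1 / (n + 1) := by
  -- move into the open interval
  set δ : ℝ := 1 / (4 * (n + 1)) with hδ
  have hδpos : 0 < δ := by positivity
  have hδle : δ ≤ 1 / 4 := by
    rw [hδ]
    apply one_div_le_one_div_of_le (by norm_num)
    have : (0 : ℝ) ≤ n := by positivity
    linarith
  obtain ⟨l', hl'0, hl'1, hl'⟩ : ∃ l' : ℝ, 0 < l' ∧ l' < 1 ∧ |l' - l| ≤ δ := by
    refine ⟨l * (1 - δ) + δ / 2, ?_, ?_, ?_⟩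
    · have := mul_nonneg hl.1 (show (0 : ℝ) ≤ 1 - δ by linarith)
      linarith
    · have := mul_le_mul_of_nonneg_right hl.2 (show (0 : ℝ) ≤ 1 - δ by linarith)
      linarith
    · have h1 : l * (1 - δ) + δ / 2 - l = δ * (1 / 2 - l) := by ring
      rw [h1, abs_mul, abs_of_pos hδpos]
      have h2 : |1 / 2 - l| ≤ 1 := by
        rw [abs_le]; constructor <;> linarith [hl.1, hl.2]
      nlinarith
  set x : ℝ := 1 / l' - 1 with hx
  have hxpos : 0 < x := by
    rw [hx]
    have : 1 < 1 / l' := by rw [lt_div_iff₀ hl'0]; linarith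
    linarith
  obtain ⟨m, t, hnm, hm, h1, h2⟩ := approx x δ hxpos hδpos n
  refine ⟨Gr t m, ?_, ?_⟩
  · have : Fintype.card (Gr t m).V = t + m + 1 := by
      show Fintype.card (Vt t m) = _
      simp
    omega
  · rw [q_eq t m hm]
    set s := A m t / m.factorial with hs
    have hsx : 0 ≤ s - x ∧ s - x ≤ x * δ := ⟨by linarith, by linarith⟩
    have hl'x : l' = 1 / (1 + x) := by
      rw [hx]; field_simp; ring
    have hspos : 0 < 1 + s := by linarith
    have hxp : 0 < 1 + x := by linarith
    have h3 : |1 / (1 + s) - l'| ≤ δ := by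
      rw [hl'x, abs_sub_comm, div_sub_div _ _ hxp.ne' hspos.ne', abs_div,
        abs_of_pos (mul_pos hxp hspos), div_le_iff₀ (mul_pos hxp hspos)]
      have : 1 * (1 + s) - (1 + x) * 1 = s - x := by ring
      rw [this, abs_of_nonneg hsx.1]
      have h4 : x ≤ (1 + x) * (1 + s) := by nlinarith
      nlinarith
    have h5 : |1 / (1 + s) - l| ≤ |1 / (1 + s) - l'| + |l' - l| := abs_sub_le _ _ _
    have h6 : 2 * δ ≤ 1 / (n + 1) := by
      rw [hδ]
      have : (0 : ℝ) < n + 1 := by positivity
      field_simp
      norm_num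
    linarith

/-- The limiting set is the unit interval. -/
theorem result : limitSet = Set.Icc (0 : ℝ) 1 := by
  ext l
  constructor
  · rintro ⟨G, -, hG⟩
    exact isClosed_Icc.mem_of_tendsto hG (Eventually.of_forall fun k => q_mem (G k))
  · intro hl
    choose G hG1 hG2 using approx_q l hl
    refine ⟨G, tendsto_atTop_mono hG1 tendsto_id, ?_⟩
    rw [tendsto_iff_dist_tendsto_zero]
    refine squeeze_zero (fun _ => dist_nonneg) (fun k => ?_) tendsto_one_div_add_atTop_nhds_zero_nat
    rw [Real.dist_eq]
    exact hG2 k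

end Pool.Agent.Results.MP_e2735d_co.LimitSet
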